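import Pool.Agent.MNE.StmtsD

/-!
# Squad MNE, row FVA: `2n ≤ 2M - q` (helper55)
-/

set_option autoImplicit false

namespace Pool.Agent.MNE.H55

open Pool.Agent.MNE Finset Filter Topology

/-- the number `b = X² - σ Y²` -/
def bb (σ X Y : ℤ) : ℤ := X ^ 2 - σ * Y ^ 2

/-- the integer `J` -/
def JJ (κ σ : ℤ) (M q j0 : ℕ) (X Y : ℤ) : ℤ :=
  κ * Y ^ q - ∑ j ∈ range j0, (-bb σ X Y) ^ j * 2 ^ (M - j) * X ^ (2 * M - q - 2 * j) * (M.choose j : ℤ)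

theorem alg1 {κ c σ : ℤ} {M n q X Y : ℕ} (hP : Par κ c σ M n q) (h : E1 κ c σ M n q X Y) (j0 : ℕ)
    (hj0 : j0 ≤ n) (hj : 2 * j0 ≤ 2 * M - q + 2) :
    (X : ℤ) ^ q * JJ κ σ M q j0 X Y =
      ∑ j ∈ Ico j0 (M + 1), (-bb σ X Y) ^ j * (2 * (X : ℤ) ^ 2) ^ (M - j) * (M.choose j : ℤ) +
        c * (bb σ X Y) ^ n := by
  have hnM := hP.hnM
  have hq := hP.hq
  have hMq := hP.hMq
  have e1 : ((X : ℤ) ^ 2 + σ * (Y : ℤ) ^ 2) ^ M =
      ∑ j ∈ range (M + 1), (-bb σ X Y) ^ j * (2 * (X : ℤ) ^ 2) ^ (M - j) * (M.choose j : ℤ) := by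
    rw [← add_pow]
    congr 1
    unfold bb
    ring
  have e2 : ∑ j ∈ range (M + 1), (-bb σ X Y) ^ j * (2 * (X : ℤ) ^ 2) ^ (M - j) * (M.choose j : ℤ) =
      ∑ j ∈ range j0, (-bb σ X Y) ^ j * (2 * (X : ℤ) ^ 2) ^ (M - j) * (M.choose j : ℤ) +
      ∑ j ∈ Ico j0 (M + 1), (-bb σ X Y) ^ j * (2 * (X : ℤ) ^ 2) ^ (M - j) * (M.choose j : ℤ) :=
    (Finset.sum_range_add_sum_Ico _ (by omega)).symm
  have e3 : (X : ℤ) ^ q * ∑ j ∈ range j0, (-bb σ X Y) ^ j * 2 ^ (M - j) *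
        (X : ℤ) ^ (2 * M - q - 2 * j) * (M.choose j : ℤ) =
      ∑ j ∈ range j0, (-bb σ X Y) ^ j * (2 * (X : ℤ) ^ 2) ^ (M - j) * (M.choose j : ℤ) := by
    rw [mul_sum]
    refine sum_congr rfl fun j hjr => ?_
    have hjj := mem_range.1 hjr
    have e4 : (X : ℤ) ^ (2 * (M - j)) = (X : ℤ) ^ q * (X : ℤ) ^ (2 * M - q - 2 * j) := by
      rw [← pow_add]
      congr 1
      omega
    rw [mul_pow, ← pow_mul, e4]
    ring
  have e5 := h.eq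
  unfold JJ
  rw [mul_sub, e3]
  have e6 : c * ((X : ℤ) ^ 2 - σ * (Y : ℤ) ^ 2) ^ n = c * (bb σ X Y) ^ n := rfl
  rw [e1, e2, e6] at e5
  linear_combination e5

theorem alg2 {κ c σ : ℤ} {M n q X Y : ℕ} (hP : Par κ c σ M n q) (h : E1 κ c σ M n q X Y) (j0 : ℕ)
    (hj0 : j0 ≤ n) (hj : 2 * j0 ≤ 2 * M - q + 2) :
    (bb σ X Y) ^ j0 ∣ JJ κ σ M q j0 X Y := by
  have h1 := alg1 hP h j0 hj0 hj
  have hco : IsCoprime (bb σ X Y) (X : ℤ) := by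
    have h2 : IsCoprime ((Y : ℤ) ^ 2) (X : ℤ) :=
      (Nat.isCoprime_iff_coprime.2 h.co).symm.pow_left
    unfold bb
    rcases hP.hσ with rfl | rfl
    · have e : (X : ℤ) ^ 2 - 1 * (Y : ℤ) ^ 2 = -((Y : ℤ) ^ 2) + (X : ℤ) * X := by ring
      rw [e]
      exact h2.neg_left.add_mul_left_left _
    · have e : (X : ℤ) ^ 2 - -1 * (Y : ℤ) ^ 2 = (Y : ℤ) ^ 2 + (X : ℤ) * X := by ring
      rw [e]
      exact h2.add_mul_left_left _
  have hco2 : IsCoprime ((bb σ X Y) ^ j0) ((X : ℤ) ^ q) := hco.pow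
  refine hco2.dvd_of_dvd_mul_left ?_
  rw [h1]
  refine dvd_add (dvd_sum fun j hjr => ?_) ((pow_dvd_pow _ hj0).mul_left _)
  have hjj := (mem_Ico.1 hjr).1
  have h3 : (bb σ X Y) ^ j0 ∣ (-bb σ X Y) ^ j :=
    (pow_dvd_pow_of_dvd (dvd_neg.2 dvd_rfl) j0).trans (pow_dvd_pow _ hjj)
  exact (h3.mul_right _).mul_right _

theorem bb_pos {κ c σ : ℤ} {M n q X Y : ℕ} (hP : Par κ c σ M n q) (h : E1 κ c σ M n q X Y) :
    0 < bb σ X Y := by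
  have h1 : (Y : ℤ) < X := by exact_mod_cast h.hYX
  have h2 : (0 : ℤ) < Y := by exact_mod_cast h.hY
  unfold bb
  rcases hP.hσ with rfl | rfl
  · nlinarith
  · nlinarith

theorem fva (hA : AsyStmt) : FvaStmt := by
  intro κ c σ M n q S hP hS hE
  by_contra hcon
  have hcon : 2 * M - q < 2 * n := not_le.1 hcon
  have hnM := hP.hnM
  have hq := hP.hq
  have hMq := hP.hMq
  obtain ⟨hne, hX, hYX, hT⟩ := hA κ c σ M n q S hP hS hE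
  obtain ⟨j0, hj0⟩ : ∃ j0, j0 = (2 * M - q) / 2 + 1 := ⟨_, rfl⟩
  have hj0n : j0 ≤ n := by omega
  have hj1 : 2 * j0 ≤ 2 * M - q + 2 := by omega
  have hj2 : 2 * M - q < 2 * j0 := by omega
  have hev : ∀ᶠ p : ℕ × ℕ in lim S, E1 κ c σ M n q p.1 p.2 := by
    have : S ∈ lim S := mem_inf_of_right (mem_principal_self S)
    exact Filter.mem_of_superset this hE
  have hX0 : ∀ᶠ p : ℕ × ℕ in lim S, (0 : ℝ) < (p.1 : ℝ) := hX.eventually_gt_atTop 0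
  set u : ℕ × ℕ → ℝ := fun p => 1 - (σ : ℝ) * ((p.2 : ℝ) / p.1) ^ 2 with hu
  have hu1 : Tendsto u (lim S) (𝓝 1) := by
    have h1 : Tendsto (fun p : ℕ × ℕ => 1 - (σ : ℝ) * ((p.2 : ℝ) / p.1) ^ 2) (lim S)
        (𝓝 (1 - (σ : ℝ) * 0 ^ 2)) := tendsto_const_nhds.sub ((hYX.pow 2).const_mul _)
    simpa using h1
  have hb : ∀ᶠ p : ℕ × ℕ in lim S, ((bb σ p.1 p.2 : ℤ) : ℝ) = (p.1 : ℝ) ^ 2 * u p := by
    filter_upwards [hX0] with p hp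
    have hp' : (p.1 : ℝ) ≠ 0 := hp.ne'
    rw [hu]
    unfold bb
    push_cast
    field_simp
  -- the limit of `J / X ^ P`
  have hJ : ∀ᶠ p : ℕ × ℕ in lim S, ((JJ κ σ M q j0 p.1 p.2 : ℤ) : ℝ) / (p.1 : ℝ) ^ (2 * M - q) =
      (κ : ℝ) * (p.2 : ℝ) ^ q / (p.1 : ℝ) ^ (2 * M - q) -
        ∑ j ∈ range j0, (-u p) ^ j * 2 ^ (M - j) * (M.choose j : ℝ) := by
    filter_upwards [hX0, hb] with p hp hbp
    have hp' : (p.1 : ℝ) ≠ 0 := hp.ne'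
    unfold JJ
    push_cast
    rw [sub_div, sum_div]
    congr 1
    refine sum_congr rfl fun j hjr => ?_
    have hjj := mem_range.1 hjr
    rw [hbp]
    have e4 : (p.1 : ℝ) ^ (2 * M - q) = ((p.1 : ℝ) ^ 2) ^ j * (p.1 : ℝ) ^ (2 * M - q - 2 * j) := by
      rw [← pow_mul, ← pow_add]
      congr 1
      omega
    rw [e4, neg_pow, mul_pow, neg_pow (u p)]
    field_simp
  have hJlim : ∃ Λ : ℝ, Tendsto (fun p : ℕ × ℕ =>
      ((JJ κ σ M q j0 p.1 p.2 : ℤ) : ℝ) / (p.1 : ℝ) ^ (2 * M - q)) (lim S) (𝓝 Λ) := by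
    refine ⟨1 - ∑ j ∈ range j0, (-1 : ℝ) ^ j * 2 ^ (M - j) * (M.choose j : ℝ), ?_⟩
    refine Tendsto.congr' (EventuallyEq.symm hJ) ?_
    refine hT.sub (tendsto_finsetSum _ fun j _ => ?_)
    exact ((hu1.neg.pow j).mul_const _).mul_const _
  obtain ⟨Λ, hΛ⟩ := hJlim
  have hJ0 : ∀ᶠ p : ℕ × ℕ in lim S, JJ κ σ M q j0 p.1 p.2 = 0 := by
    have h1 : Tendsto (fun p : ℕ × ℕ => ((JJ κ σ M q j0 p.1 p.2 : ℤ) : ℝ) /
        (p.1 : ℝ) ^ (2 * M - q) * ((p.1 : ℝ) ^ (2 * j0 - (2 * M - q)))⁻¹) (lim S) (𝓝 (Λ * 0)) :=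
      hΛ.mul (((tendsto_pow_atTop (by omega)).comp hX).inv_tendsto_atTop)
    rw [mul_zero] at h1
    have h2 : ∀ᶠ p : ℕ × ℕ in lim S, |((JJ κ σ M q j0 p.1 p.2 : ℤ) : ℝ) /
        (p.1 : ℝ) ^ (2 * M - q) * ((p.1 : ℝ) ^ (2 * j0 - (2 * M - q)))⁻¹| < 1 / 2 := by
      have := h1.abs
      rw [abs_zero] at this
      exact this.eventually_lt_const (by norm_num)
    have h3 : ∀ᶠ p : ℕ × ℕ in lim S, (1 / 2 : ℝ) < u p ^ j0 := by
      have := hu1.pow j0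
      rw [one_pow] at this
      exact this.eventually_const_lt (by norm_num)
    filter_upwards [hev, hX0, hb, h2, h3] with p hp hp0 hbp h2p h3p
    have hd := alg2 hP hp j0 hj0n hj1
    have hbpos := bb_pos hP hp
    have hlt : |JJ κ σ M q j0 p.1 p.2| < (bb σ p.1 p.2) ^ j0 := by
      have h4 : (|((JJ κ σ M q j0 p.1 p.2 : ℤ) : ℝ)|) < ((bb σ p.1 p.2 : ℤ) : ℝ) ^ j0 := by
        rw [abs_mul, abs_div, abs_inv, abs_of_pos (pow_pos hp0 _), abs_of_pos (pow_pos hp0 _),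
          ← div_eq_mul_inv, div_div, ← pow_add, div_lt_iff₀ (pow_pos hp0 _)] at h2p
        have e5 : 2 * M - q + (2 * j0 - (2 * M - q)) = 2 * j0 := by omega
        rw [e5] at h2p
        rw [hbp, mul_pow, ← pow_mul]
        have h5 : 0 < (p.1 : ℝ) ^ (2 * j0) := pow_pos hp0 _
        nlinarith
      exact_mod_cast h4
    exact Int.eq_zero_of_abs_lt_dvd hd hlt
  -- the second limit
  have hsum : ∀ᶠ p : ℕ × ℕ in lim S,
      ∑ j ∈ Ico j0 (M + 1), (-u p) ^ j * 2 ^ (M - j) * (M.choose j : ℝ) +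
        (c : ℝ) * u p ^ n * ((p.1 : ℝ) ^ (2 * (M - n)))⁻¹ = 0 := by
    filter_upwards [hev, hX0, hb, hJ0] with p hp hp0 hbp hJp
    have hp' : (p.1 : ℝ) ≠ 0 := hp0.ne'
    have h1 := alg1 hP hp j0 hj0n hj1
    rw [hJp, mul_zero] at h1
    have h2 : (0 : ℝ) = ∑ j ∈ Ico j0 (M + 1), (-((bb σ p.1 p.2 : ℤ) : ℝ)) ^ j *
        (2 * (p.1 : ℝ) ^ 2) ^ (M - j) * (M.choose j : ℝ) + (c : ℝ) * ((bb σ p.1 p.2 : ℤ) : ℝ) ^ n := by
      exact_mod_cast h1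
    rw [hbp] at h2
    have h3 : (0 : ℝ) = (p.1 : ℝ) ^ (2 * M) *
        (∑ j ∈ Ico j0 (M + 1), (-u p) ^ j * 2 ^ (M - j) * (M.choose j : ℝ) +
        (c : ℝ) * u p ^ n * ((p.1 : ℝ) ^ (2 * (M - n)))⁻¹) := by
      rw [h2, mul_add, mul_sum]
      congr 1
      · refine sum_congr rfl fun j hjr => ?_
        have hjj := mem_Ico.1 hjr
        have e4 : (p.1 : ℝ) ^ (2 * M) = ((p.1 : ℝ) ^ 2) ^ j * ((p.1 : ℝ) ^ 2) ^ (M - j) := by
          rw [← pow_add, ← pow_mul]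
          congr 1
          omega
        rw [e4, neg_pow, mul_pow, mul_pow 2, neg_pow (u p)]
        ring
      · have e4 : (p.1 : ℝ) ^ (2 * M) = ((p.1 : ℝ) ^ 2) ^ n * (p.1 : ℝ) ^ (2 * (M - n)) := by
          rw [← pow_mul, ← pow_add]
          congr 1
          omega
        rw [e4, mul_pow]
        field_simp
    rcases mul_eq_zero.1 h3.symm with h4 | h4
    · exact absurd h4 (pow_ne_zero _ hp')
    · exact h4
  have hlim2 : Tendsto (fun p : ℕ × ℕ =>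
      ∑ j ∈ Ico j0 (M + 1), (-u p) ^ j * 2 ^ (M - j) * (M.choose j : ℝ) +
        (c : ℝ) * u p ^ n * ((p.1 : ℝ) ^ (2 * (M - n)))⁻¹) (lim S)
      (𝓝 (∑ j ∈ Ico j0 (M + 1), (-1 : ℝ) ^ j * 2 ^ (M - j) * (M.choose j : ℝ) +
        (c : ℝ) * 1 ^ n * 0)) := by
    refine (tendsto_finsetSum _ fun j _ => ?_).add ?_
    · exact ((hu1.neg.pow j).mul_const _).mul_const _
    · exact ((hu1.pow n).const_mul _).mul
        (((tendsto_pow_atTop (by omega)).comp hX).inv_tendsto_atTop)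
  have hz := tendsto_nhds_unique hlim2 (tendsto_const_nhds.congr' (EventuallyEq.symm hsum))
  rw [mul_zero, add_zero] at hz
  have hz' : ∑ j ∈ Ico j0 (M + 1), (-1 : ℤ) ^ j * 2 ^ (M - j) * (M.choose j : ℤ) = 0 := by
    exact_mod_cast hz
  rw [Finset.sum_Ico_succ_top (by omega)] at hz'
  have hev2 : (2 : ℤ) ∣ ∑ j ∈ Ico j0 M, (-1 : ℤ) ^ j * 2 ^ (M - j) * (M.choose j : ℤ) := by
    refine dvd_sum fun j hjr => ?_
    have hjj := mem_Ico.1 hjr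
    have h5 : (2 : ℤ) ∣ 2 ^ (M - j) := dvd_pow_self 2 (by omega)
    exact (h5.mul_left _).mul_right _
  rw [Nat.sub_self, pow_zero, mul_one, Nat.choose_self, Nat.cast_one, mul_one] at hz'
  have h6 : (2 : ℤ) ∣ (-1) ^ M := by
    have := (dvd_add_right hev2).1 (by rw [hz']; exact dvd_zero _)
    exact this
  rcases neg_one_pow_eq_or ℤ M with h7 | h7 <;> rw [h7] at h6 <;> omega

end Pool.Agent.MNE.H55
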