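import Pool.Agent.MNE.StmtsD

/-!
# Squad MNE, row RED: reduction to the normalised equation (helper55)
-/

set_option autoImplicit false

namespace Pool.Agent.MNE.H55

open Pool.Agent.MNE

/-- the images of the infinitely many solutions -/
theorem inf_of {x y z : ℕ} {κ c σ : ℤ} {M n q : ℕ}
    (h : {p : ℕ × ℕ | Sol p.1 p.2 x y z}.Infinite) (F : ℕ × ℕ → ℕ × ℕ)
    (hinj : ∀ p, Sol p.1 p.2 x y z → ∀ p', Sol p'.1 p'.2 x y z → F p = F p' → p = p')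
    (hF : ∀ p, Sol p.1 p.2 x y z → E1 κ c σ M n q (F p).1 (F p).2) :
    {p : ℕ × ℕ | E1 κ c σ M n q p.1 p.2}.Infinite := by
  have h1 : Set.InjOn F {p : ℕ × ℕ | Sol p.1 p.2 x y z} := fun p hp p' hp' e =>
    hinj p hp p' hp' e
  refine ((Set.infinite_image_iff h1).2 h).mono ?_
  rintro _ ⟨p, hp, rfl⟩
  exact hF p hp

/-- the pair `(f + g, f - g)` -/
theorem pair1 (hb : BasStmt) {f g x y z : ℕ} (hs : Sol f g x y z) :
    0 < f - g ∧ f - g < f + g ∧ Nat.Coprime (f + g) (f - g) ∧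
    (((f + g : ℕ) : ℤ)) ^ 2 + ((f - g : ℕ) : ℤ) ^ 2 = 2 * ((f ^ 2 + g ^ 2 : ℕ) : ℤ) ∧
    (((f + g : ℕ) : ℤ)) ^ 2 - ((f - g : ℕ) : ℤ) ^ 2 = 2 * ((2 * f * g : ℕ) : ℤ) ∧
    (((f + g : ℕ) : ℤ)) * ((f - g : ℕ) : ℤ) = ((f ^ 2 - g ^ 2 : ℕ) : ℤ) := by
  obtain ⟨-, -, -, hd3, -, -, -, hfac, -, -, -, -, -, -, hco, -⟩ := hb f g x y z hs
  have hg := hs.hg
  have hd := hs.hd
  have hc : Nat.Coprime (f + g) (2 * f) := Nat.Coprime.coprime_mul_right_right hco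
  have hcast : ((f - g : ℕ) : ℤ) = (f : ℤ) - g := Nat.cast_sub (by omega)
  refine ⟨by omega, by omega, ?_, ?_, ?_, ?_⟩
  · have e : 2 * f = (f - g) + (f + g) := by omega
    rw [e] at hc
    exact (Nat.coprime_add_self_right).1 hc
  · rw [hcast]; push_cast; ring
  · rw [hcast]; push_cast; ring
  · rw [hfac]; push_cast; ring

theorem red (hb : BasStmt) (hy : YezStmt) : RedStmt := by
  intro x y z hinf
  obtain ⟨p0, hp0⟩ := hinf.nonempty
  have hp0 : Sol p0.1 p0.2 x y z := hp0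
  obtain ⟨hxy, hxz, hz2, -⟩ := hb _ _ x y z hp0
  have hyz : y ≠ z := by
    rintro rfl
    exact hinf (hy x y)
  have heqZ : ∀ {f g : ℕ}, Sol f g x y z →
      ((f ^ 2 + g ^ 2 : ℕ) : ℤ) ^ x + ((2 * f * g : ℕ) : ℤ) ^ y = ((f ^ 2 - g ^ 2 : ℕ) : ℤ) ^ z := by
    intro f g hs
    have := hs.eq
    exact_mod_cast this
  rcases lt_or_gt_of_ne hxy with hlt | hgt
  · rcases lt_or_gt_of_ne hyz with hlt2 | hgt2
    · -- x < y < z
      refine ⟨2 ^ y, 2 ^ (y - x), -1, y, x, z, ⟨hp0.hx, hlt, hlt2, ?_, Or.inr rfl,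
        Or.inl ⟨rfl, rfl⟩⟩, ?_⟩
      · rwa [max_eq_right hlt.le] at hz2
      · refine inf_of hinf (fun p => (p.1 + p.2, p.1 - p.2)) ?_ ?_
        · rintro ⟨f, g⟩ h1 ⟨f', g'⟩ h2 e
          have e1 := congrArg Prod.fst e
          have e2 := congrArg Prod.snd e
          have := h1.hd
          have := h2.hd
          simp only at e1 e2 this
          ext <;> simp only <;> omega
        · rintro ⟨f, g⟩ hs
          obtain ⟨a1, a2, a3, a4, a5, a6⟩ := pair1 hb hs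
          refine ⟨a1, a2, a3, ?_⟩
          have e := heqZ hs
          have e3 : (2 : ℤ) ^ (y - x) * 2 ^ x = 2 ^ y := by
            rw [← pow_add, Nat.sub_add_cancel hlt.le]
          show (2 : ℤ) ^ y * ((f + g : ℕ) : ℤ) ^ z * ((f - g : ℕ) : ℤ) ^ z =
            (((f + g : ℕ) : ℤ) ^ 2 + -1 * ((f - g : ℕ) : ℤ) ^ 2) ^ y +
              2 ^ (y - x) * (((f + g : ℕ) : ℤ) ^ 2 - -1 * ((f - g : ℕ) : ℤ) ^ 2) ^ x
          have b1 : ((f + g : ℕ) : ℤ) ^ 2 + -1 * ((f - g : ℕ) : ℤ) ^ 2 =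
              2 * ((2 * f * g : ℕ) : ℤ) := by rw [← a5]; ring
          have b2 : ((f + g : ℕ) : ℤ) ^ 2 - -1 * ((f - g : ℕ) : ℤ) ^ 2 =
              2 * ((f ^ 2 + g ^ 2 : ℕ) : ℤ) := by rw [← a4]; ring
          rw [b1, b2, mul_assoc, ← mul_pow, a6, ← e, mul_pow, mul_pow, ← mul_assoc, e3]
          ring
    · -- z < y
      refine ⟨2 ^ y, -1, -1, z, x, y, ⟨hp0.hx, hxz, hgt2, ?_, Or.inr rfl,
        Or.inr ⟨rfl, rfl⟩⟩, ?_⟩
      · have h1 := hp0.eq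
        have hg := hp0.hg
        have hd := hp0.hd
        have h2 : p0.1 ^ y ≤ (2 * p0.1 * p0.2) ^ y := by
          refine Nat.pow_le_pow_left ?_ y
          nlinarith
        have h3 : (p0.1 ^ 2 - p0.2 ^ 2) ^ z ≤ p0.1 ^ (2 * z) := by
          rw [pow_mul]
          exact Nat.pow_le_pow_left (Nat.sub_le _ _) z
        have h4 : 0 < (p0.1 ^ 2 + p0.2 ^ 2) ^ x := by positivity
        have h5 : p0.1 ^ y < p0.1 ^ (2 * z) := by omega
        exact (Nat.pow_lt_pow_iff_right (by omega)).1 h5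
      · refine inf_of hinf (fun p => p) (fun p _ p' _ e => e) ?_
        rintro ⟨f, g⟩ hs
        refine ⟨hs.hg, by have := hs.hd; simp only at this ⊢; omega, hs.co, ?_⟩
        have e := heqZ hs
        have hd := hs.hd
        have hcast : ((f ^ 2 - g ^ 2 : ℕ) : ℤ) = (f : ℤ) ^ 2 - (g : ℤ) ^ 2 := by
          rw [Nat.cast_sub]
          · push_cast; ring
          · exact Nat.pow_le_pow_left (by simp only at hd; omega) 2
        rw [hcast] at e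
        push_cast at e
        show (2 : ℤ) ^ y * (f : ℤ) ^ y * (g : ℤ) ^ y =
            ((f : ℤ) ^ 2 + -1 * (g : ℤ) ^ 2) ^ z + -1 * ((f : ℤ) ^ 2 - -1 * (g : ℤ) ^ 2) ^ x
        have b1 : (f : ℤ) ^ 2 + -1 * (g : ℤ) ^ 2 = (f : ℤ) ^ 2 - (g : ℤ) ^ 2 := by ring
        have b2 : (f : ℤ) ^ 2 - -1 * (g : ℤ) ^ 2 = (f : ℤ) ^ 2 + (g : ℤ) ^ 2 := by ring
        rw [b1, b2, ← mul_pow, ← mul_pow, ← e]
        ring
  · -- y < x
    refine ⟨2 ^ x, 2 ^ (x - y), 1, x, y, z, ⟨hp0.hy, hgt, hxz, ?_, Or.inl rfl,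
      Or.inl ⟨rfl, rfl⟩⟩, ?_⟩
    · rwa [max_eq_left (le_of_lt hgt)] at hz2
    · refine inf_of hinf (fun p => (p.1 + p.2, p.1 - p.2)) ?_ ?_
      · rintro ⟨f, g⟩ h1 ⟨f', g'⟩ h2 e
        have e1 := congrArg Prod.fst e
        have e2 := congrArg Prod.snd e
        have := h1.hd
        have := h2.hd
        simp only at e1 e2 this
        ext <;> simp only <;> omega
      · rintro ⟨f, g⟩ hs
        obtain ⟨a1, a2, a3, a4, a5, a6⟩ := pair1 hb hs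
        refine ⟨a1, a2, a3, ?_⟩
        have e := heqZ hs
        have e3 : (2 : ℤ) ^ (x - y) * 2 ^ y = 2 ^ x := by
          rw [← pow_add, Nat.sub_add_cancel (le_of_lt hgt)]
        show (2 : ℤ) ^ x * ((f + g : ℕ) : ℤ) ^ z * ((f - g : ℕ) : ℤ) ^ z =
          (((f + g : ℕ) : ℤ) ^ 2 + 1 * ((f - g : ℕ) : ℤ) ^ 2) ^ x +
            2 ^ (x - y) * (((f + g : ℕ) : ℤ) ^ 2 - 1 * ((f - g : ℕ) : ℤ) ^ 2) ^ y
        rw [one_mul, a4, a5, mul_assoc, ← mul_pow, a6, ← e, mul_pow, mul_pow, ← mul_assoc, e3]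
        ring

end Pool.Agent.MNE.H55
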